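import Mathlib

set_option autoImplicit false

/-! # Project NG: (E), the dyadic assembly for abstract functions -/

namespace Pool.Agent.J4H87.NG

open Complex Filter Topology

theorem ord_scale {g : ℂ → ℂ} (hg : Differentiable ℂ g) {c a : ℂ} (hc : c ≠ 0) (ha : a ≠ 0) (z₀ : ℂ) :
    analyticOrderAt (fun z => c * g (a * z)) z₀ = analyticOrderAt g (a * z₀) := by
  have hgd : Differentiable ℂ (fun z => c * g (a * z)) := (hg.comp (differentiable_id.const_mul a)).const_mul c
  by_cases htop : analyticOrderAt g (a * z₀) = ⊤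
  · rw [htop, analyticOrderAt_eq_top]
    rw [analyticOrderAt_eq_top] at htop
    have h1 : Tendsto (fun z : ℂ => a * z) (𝓝 z₀) (𝓝 (a * z₀)) := (continuous_const.mul continuous_id).tendsto z₀
    filter_upwards [h1.eventually htop] with z hz
    rw [hz, mul_zero]
  · obtain ⟨n, hn⟩ := ENat.ne_top_iff_exists.mp htop
    rw [← hn]
    rw [hgd.analyticAt z₀ |>.analyticOrderAt_eq_natCast]
    have h2 := ((hg.analyticAt (a * z₀)).analyticOrderAt_eq_natCast (n := n)).mp hn.symm
    obtain ⟨h, h3, h4, h5⟩ := h2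
    refine ⟨fun z => c * a ^ n * h (a * z), ?_, ?_, ?_⟩
    · have h6 : AnalyticAt ℂ (fun z : ℂ => a * z) z₀ := by fun_prop
      exact analyticAt_const.mul (AnalyticAt.fun_comp (f := fun z : ℂ => a * z) h3 h6)
    · exact mul_ne_zero (mul_ne_zero hc (pow_ne_zero _ ha)) h4
    · have h1 : Tendsto (fun z : ℂ => a * z) (𝓝 z₀) (𝓝 (a * z₀)) := (continuous_const.mul continuous_id).tendsto z₀
      filter_upwards [h1.eventually h5] with z hz
      rw [hz, smul_eq_mul, smul_eq_mul, ← mul_sub, mul_pow]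
      ring

/-- the zeros in the dyadic blocks from `√R` on -/
theorem blocks (E : ℂ → ℂ) (q δ T₀ R : ℝ) (hq : 0 < q) (hδ : 0 < δ) (hR : 9 ≤ R) (hT₀ : T₀ ≤ Real.sqrt R)
    (hN : ∀ T : ℝ, T₀ ≤ T → ∀ S : Finset ℂ,
      (∀ w ∈ S, E w = 0 ∧ |w.re| ≤ δ * Real.log T ∧ T ≤ w.im ∧ w.im ≤ 2 * T) →
      ∑ w ∈ S, (analyticOrderNatAt E w : ℝ) ≤ q * T * Real.log T) :
    ∀ k : ℕ, 2 ^ k * Real.sqrt R ≤ 2 * R → ∀ S : Finset ℂ,
      (∀ w ∈ S, E w = 0 ∧ |w.re| ≤ δ / 2 * Real.log R ∧ Real.sqrt R ≤ w.im ∧ w.im ≤ 2 ^ k * Real.sqrt R) →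
      ∑ w ∈ S, (analyticOrderNatAt E w : ℝ) ≤ q * Real.log R * (Real.sqrt R * 2 ^ k) := by
  have hR0 : 0 < R := by linarith
  have hsq : 3 ≤ Real.sqrt R := by
    have h9 : Real.sqrt 9 = 3 := by
      rw [show (9 : ℝ) = 3 ^ 2 by norm_num, Real.sqrt_sq (by norm_num)]
    rw [← h9]
    exact Real.sqrt_le_sqrt hR
  have hss : Real.sqrt R * Real.sqrt R = R := Real.mul_self_sqrt hR0.le
  have hlogR : 0 ≤ Real.log R := Real.log_nonneg (by linarith)
  -- one block
  have hone : ∀ T : ℝ, Real.sqrt R ≤ T → T ≤ R → ∀ S : Finset ℂ,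
      (∀ w ∈ S, E w = 0 ∧ |w.re| ≤ δ / 2 * Real.log R ∧ T ≤ w.im ∧ w.im ≤ 2 * T) →
      ∑ w ∈ S, (analyticOrderNatAt E w : ℝ) ≤ q * Real.log R * T := by
    intro T h1 h2 S hS
    have hT0 : 0 < T := by linarith
    have hlogT : Real.log R / 2 ≤ Real.log T := by
      rw [← Real.log_sqrt hR0.le]
      exact Real.log_le_log (by linarith) h1
    have hlogT2 : Real.log T ≤ Real.log R := Real.log_le_log hT0 h2
    have h3 := hN T (hT₀.trans h1) S (by
      intro w hw
      obtain ⟨a1, a2, a3, a4⟩ := hS w hw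
      refine ⟨a1, a2.trans ?_, a3, a4⟩
      nlinarith)
    refine h3.trans ?_
    have : q * T * Real.log T ≤ q * T * Real.log R := mul_le_mul_of_nonneg_left hlogT2 (by positivity)
    linarith
  intro k
  induction k with
  | zero =>
    intro _ S hS
    have h := hone (Real.sqrt R) (le_refl _) (by nlinarith) S (by
      intro w hw
      obtain ⟨a1, a2, a3, a4⟩ := hS w hw
      refine ⟨a1, a2, a3, ?_⟩
      simp only [pow_zero, one_mul] at a4
      linarith)
    simpa using h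
  | succ k ih =>
    intro hk S hS
    have hk' : 2 ^ k * Real.sqrt R ≤ R := by
      rw [pow_succ] at hk
      linarith
    have hpk : (1 : ℝ) ≤ 2 ^ k := one_le_pow₀ (by norm_num)
    have h1 := ih (by linarith) (S.filter (fun w => w.im ≤ 2 ^ k * Real.sqrt R)) (by
      intro w hw
      rw [Finset.mem_filter] at hw
      obtain ⟨a1, a2, a3, a4⟩ := hS w hw.1
      exact ⟨a1, a2, a3, hw.2⟩)
    have h2 := hone (2 ^ k * Real.sqrt R) (by nlinarith) hk' (S.filter (fun w => ¬ w.im ≤ 2 ^ k * Real.sqrt R)) (by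
      intro w hw
      rw [Finset.mem_filter] at hw
      obtain ⟨a1, a2, a3, a4⟩ := hS w hw.1
      have := hw.2
      push Not at this
      refine ⟨a1, a2, this.le, ?_⟩
      rw [pow_succ] at a4
      linarith)
    rw [← Finset.sum_filter_add_sum_filter_not S (fun w => w.im ≤ 2 ^ k * Real.sqrt R)]
    refine (add_le_add h1 h2).trans (le_of_eq ?_)
    rw [pow_succ]
    ring

theorem core (H E : ℂ → ℂ) (b δ c : ℝ) (hE : Differentiable ℂ E) (hH : ∀ z, H z = 1 / 8 * E (I * z / 2))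
    (hsym : ∀ w, E (-w) = E w) (hb : 0 < b) (hδ : 0 < δ) (hc : 0 < c)
    (hNEAR : ∃ T₀ : ℝ, 2 ≤ T₀ ∧ ∀ T : ℝ, T₀ ≤ T → ∀ S : Finset ℂ,
      (∀ w ∈ S, E w = 0 ∧ |w.re| ≤ δ * Real.log T ∧ T ≤ w.im ∧ w.im ≤ 2 * T) →
      ∑ w ∈ S, (analyticOrderNatAt E w : ℝ) ≤ 50 * (δ / (b / 4)) * T * Real.log T)
    (hUPT : ∃ R₀ : ℝ, 2 ≤ R₀ ∧ ∀ R : ℝ, R₀ ≤ R → ∀ S : Finset ℂ, (∀ z ∈ S, H z = 0 ∧ ‖z‖ ≤ R) →
      ∑ z ∈ S, (analyticOrderNatAt H z : ℝ) ≤ 4 * R * Real.log R)
    (hTOT : ∃ R₀ : ℝ, 2 ≤ R₀ ∧ ∀ R : ℝ, R₀ ≤ R → ∃ S : Finset ℂ, (∀ z ∈ S, H z = 0 ∧ ‖z‖ ≤ R) ∧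
      c * R * Real.log R ≤ ∑ z ∈ S, (analyticOrderNatAt H z : ℝ)) :
    ∃ R₀ : ℝ, 2 ≤ R₀ ∧ ∀ R : ℝ, R₀ ≤ R → {z : ℂ | H z = 0 ∧ ‖z‖ ≤ R}.Finite ∧
      ((∑ᶠ z ∈ {z : ℂ | (H z = 0 ∧ ‖z‖ ≤ R) ∧ |z.im| ≤ δ * Real.log R}, (analyticOrderNatAt H z : ℝ)) ≤
        401 / c * (δ / b) * ∑ᶠ z ∈ {z : ℂ | H z = 0 ∧ ‖z‖ ≤ R}, (analyticOrderNatAt H z : ℝ)) ∧
      ((∑ᶠ z ∈ {z : ℂ | (H z = 0 ∧ ‖z‖ ≤ R) ∧ |z.im| ≤ δ * Real.log R}, (analyticOrderNatAt H z : ℝ)) ≤
        ∑ᶠ z ∈ {z : ℂ | H z = 0 ∧ ‖z‖ ≤ R}, (analyticOrderNatAt H z : ℝ)) := by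
  classical
  obtain ⟨T₀, -, hN⟩ := hNEAR
  obtain ⟨U₀, hU2, hU⟩ := hUPT
  obtain ⟨V₀, hV2, hV⟩ := hTOT
  have hHd : Differentiable ℂ H := by
    have : H = fun z => (1 / 8 : ℂ) * E (I / 2 * z) := by
      funext z
      rw [hH z]
      congr 2
      ring
    rw [this]
    exact (hE.comp (differentiable_id.const_mul (I / 2))).const_mul _
  -- orders
  have hord : ∀ z, analyticOrderNatAt H z = analyticOrderNatAt E (I * z / 2) := by
    intro z
    have e : H = fun z => (1 / 8 : ℂ) * E (I / 2 * z) := by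
      funext z
      rw [hH z]
      congr 2
      ring
    unfold analyticOrderNatAt
    rw [e, ord_scale hE (by norm_num) (by simp) z]
    congr 2
    ring
  have hneg : ∀ w, analyticOrderNatAt E (-w) = analyticOrderNatAt E w := by
    intro w
    have e : (fun z => (1 : ℂ) * E (-1 * z)) = E := by
      funext z
      rw [one_mul, neg_one_mul, hsym]
    have h := ord_scale hE (c := 1) (a := -1) one_ne_zero (by norm_num) w
    rw [e, neg_one_mul] at h
    unfold analyticOrderNatAt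
    rw [h]
  -- not identically zero
  have hpos : ∀ z, H z = 0 → 1 ≤ analyticOrderNatAt H z := by
    obtain ⟨S, hS1, hS2⟩ := hV V₀ (le_refl _)
    have hlog : 0 < Real.log V₀ := Real.log_pos (by linarith)
    have h1 : 0 < ∑ z ∈ S, (analyticOrderNatAt H z : ℝ) := lt_of_lt_of_le (by positivity) hS2
    obtain ⟨z₁, hz₁, h2⟩ := Finset.exists_ne_zero_of_sum_ne_zero h1.ne'
    have h3 : analyticOrderNatAt H z₁ ≠ 0 := by
      intro h
      exact h2 (by rw [h]; simp)
    have h4 : analyticOrderAt H z₁ ≠ ⊤ := by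
      intro h
      apply h3
      unfold analyticOrderNatAt
      rw [h]
      rfl
    intro z hz
    have hA : AnalyticOnNhd ℂ H Set.univ := fun x _ => hHd.analyticAt x
    have h5 : analyticOrderAt H z ≠ ⊤ :=
      hA.analyticOrderAt_ne_top_of_isPreconnected isPreconnected_univ (Set.mem_univ z₁) (Set.mem_univ z) h4
    have h6 : analyticOrderAt H z ≠ 0 := (hHd.analyticAt z).analyticOrderAt_ne_zero.2 hz
    have h7 : (analyticOrderNatAt H z : ℕ∞) = analyticOrderAt H z := by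
      unfold analyticOrderNatAt
      exact ENat.natCast_toNat h5
    rcases Nat.eq_zero_or_pos (analyticOrderNatAt H z) with h | h
    · rw [h] at h7
      exact absurd h7.symm h6
    · exact h
  -- finiteness
  have hfin : ∀ R : ℝ, U₀ ≤ R → {z : ℂ | H z = 0 ∧ ‖z‖ ≤ R}.Finite := by
    intro R hR
    by_contra hinf
    obtain ⟨N, hNR⟩ := exists_nat_gt (4 * R * Real.log R)
    obtain ⟨S, hS1, hS2⟩ := Set.Infinite.exists_subset_card_eq hinf N
    have h1 := hU R hR S (fun z hz => hS1 hz)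
    have h2 : (S.card : ℝ) ≤ ∑ z ∈ S, (analyticOrderNatAt H z : ℝ) := by
      calc (S.card : ℝ) = ∑ z ∈ S, (1 : ℝ) := by simp
        _ ≤ _ := Finset.sum_le_sum (fun z hz => by exact_mod_cast hpos z (hS1 hz).1)
    rw [hS2] at h2
    linarith
  -- largeness
  have hl1 : ∀ D : ℝ, ∀ᶠ R : ℝ in atTop, D ≤ Real.sqrt R := fun D => Real.tendsto_sqrt_atTop.eventually_ge_atTop D
  have hl2 : ∀ᶠ R : ℝ in atTop, δ * Real.log R ≤ Real.sqrt R := by
    have h1 := (isLittleO_log_rpow_atTop (show (0 : ℝ) < 1 / 2 by norm_num)).bound (show (0 : ℝ) < 1 / δ by positivity)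
    filter_upwards [h1, eventually_ge_atTop 1] with R hR hR1
    rw [← Real.sqrt_eq_rpow, Real.norm_of_nonneg (Real.log_nonneg hR1), Real.norm_of_nonneg (Real.sqrt_nonneg R)] at hR
    rw [div_mul_eq_mul_div, one_mul, le_div_iff₀ hδ] at hR
    linarith
  obtain ⟨R₁, hR₁⟩ := eventually_atTop.1 ((hl1 T₀).and ((hl1 (12 * b / δ)).and ((hl1 U₀).and (hl2.and (eventually_ge_atTop (9 : ℝ))))))
  refine ⟨max R₁ (max U₀ V₀), le_trans hU2 (le_trans (le_max_left _ _) (le_max_right _ _)), ?_⟩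
  intro R hR
  obtain ⟨g1, g2, g3, g4, g5⟩ := hR₁ R ((le_max_left _ _).trans hR)
  have hRU : U₀ ≤ R := (le_trans (le_max_left _ _) (le_max_right _ _)).trans hR
  have hRV : V₀ ≤ R := (le_trans (le_max_right _ _) (le_max_right _ _)).trans hR
  have hF := hfin R hRU
  refine ⟨hF, ?_⟩
  have hR0 : 0 < R := by linarith
  set s : ℝ := Real.sqrt R with hs
  have hss : s * s = R := Real.mul_self_sqrt hR0.le
  have hs3 : 3 ≤ s := by
    by_contra hcon
    push Not at hcon
    have : s * s < 9 := by nlinarith [Real.sqrt_nonneg R]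
    linarith
  have hlogR : 0 ≤ Real.log R := Real.log_nonneg (by linarith)
  have hF2 : {z : ℂ | (H z = 0 ∧ ‖z‖ ≤ R) ∧ |z.im| ≤ δ * Real.log R}.Finite := hF.subset (fun z hz => hz.1)
  rw [finsum_mem_eq_finite_toFinset_sum _ hF, finsum_mem_eq_finite_toFinset_sum _ hF2]
  set A := hF.toFinset with hA
  set S := hF2.toFinset with hSdef
  have hmS : ∀ z ∈ S, (H z = 0 ∧ ‖z‖ ≤ R) ∧ |z.im| ≤ δ * Real.log R := fun z hz => by
    rw [hSdef, Set.Finite.mem_toFinset] at hz
    exact hz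
  have hsub : S ⊆ A := by
    intro z hz
    rw [hA, Set.Finite.mem_toFinset]
    exact (hmS z hz).1
  have hnn : ∀ z, (0 : ℝ) ≤ (analyticOrderNatAt H z : ℝ) := fun z => Nat.cast_nonneg _
  have htriv : ∑ z ∈ S, (analyticOrderNatAt H z : ℝ) ≤ ∑ z ∈ A, (analyticOrderNatAt H z : ℝ) :=
    Finset.sum_le_sum_of_subset_of_nonneg hsub (fun z _ _ => hnn z)
  refine ⟨?_, htriv⟩
  -- the lower bound
  have hlow : c * R * Real.log R ≤ ∑ z ∈ A, (analyticOrderNatAt H z : ℝ) := by
    obtain ⟨S', h1, h2⟩ := hV R hRV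
    refine h2.trans (Finset.sum_le_sum_of_subset_of_nonneg ?_ (fun z _ _ => hnn z))
    intro z hz
    rw [hA, Set.Finite.mem_toFinset]
    exact h1 z hz
  -- the number of dyadic blocks
  obtain ⟨k, hk1, hk2⟩ : ∃ k : ℕ, R / 2 ≤ 2 ^ k * s ∧ 2 ^ k * s ≤ R := by
    have hex : ∃ k : ℕ, R / 2 ≤ 2 ^ k * s := by
      obtain ⟨k, hk⟩ := pow_unbounded_of_one_lt (R / 2) (show (1 : ℝ) < 2 by norm_num)
      have hpk : (0 : ℝ) < 2 ^ k := by positivity
      exact ⟨k, by nlinarith⟩
    refine ⟨Nat.find hex, Nat.find_spec hex, ?_⟩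
    rcases Nat.eq_zero_or_pos (Nat.find hex) with h | h
    · rw [h]
      nlinarith
    · have h1 := Nat.find_min hex (Nat.sub_lt h one_pos)
      push Not at h1
      have h2 : (2 : ℝ) ^ (Nat.find hex) = 2 * 2 ^ (Nat.find hex - 1) := by
        rw [← pow_succ']
        congr 1
        omega
      rw [h2]
      linarith
  have hq : 0 < 50 * (δ / (b / 4)) := by positivity
  have hblocks := blocks E (50 * (δ / (b / 4))) δ T₀ R hq hδ g5 g1 hN k (by linarith)
  have hbd : 50 * (δ / (b / 4)) * Real.log R * (s * 2 ^ k) ≤ 200 * (δ / b) * R * Real.log R := by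
    have e : 50 * (δ / (b / 4)) = 200 * (δ / b) := by
      field_simp
      norm_num
    rw [e]
    have h1 : s * 2 ^ k ≤ R := by linarith
    have h2 : 0 ≤ 200 * (δ / b) * Real.log R := by positivity
    nlinarith [mul_le_mul_of_nonneg_left h1 h2]
  -- the upper part
  have hre : ∀ z : ℂ, (I * z / 2).re = -z.im / 2 := by
    intro z
    simp [Complex.mul_re]
  have him : ∀ z : ℂ, (I * z / 2).im = z.re / 2 := by
    intro z
    simp [Complex.mul_im]
  have hz2 : ∀ z : ℂ, H z = 0 → E (I * z / 2) = 0 := by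
    intro z hz
    rw [hH z] at hz
    simpa using hz
  have hup : ∑ z ∈ S.filter (fun z => s ≤ z.re / 2), (analyticOrderNatAt H z : ℝ) ≤ 200 * (δ / b) * R * Real.log R := by
    have hinj : Set.InjOn (fun z : ℂ => I * z / 2) (S.filter (fun z => s ≤ z.re / 2)) := by
      intro x _ y _ h
      simp only at h
      have h' : I * x = I * y := by
        have := congrArg (fun w => w * 2) h
        simpa using this
      exact mul_left_cancel₀ Complex.I_ne_zero h'
    have h1 := hblocks ((S.filter (fun z => s ≤ z.re / 2)).image (fun z => I * z / 2)) (by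
      intro w hw
      rw [Finset.mem_image] at hw
      obtain ⟨z, hz, rfl⟩ := hw
      rw [Finset.mem_filter] at hz
      obtain ⟨⟨a1, a2⟩, a3⟩ := hmS z hz.1
      refine ⟨hz2 z a1, ?_, ?_, ?_⟩
      · rw [hre, abs_div, abs_neg]
        rw [abs_of_pos (show (0 : ℝ) < 2 by norm_num)]
        linarith
      · rw [him]
        exact hz.2
      · rw [him]
        have := (Complex.abs_re_le_norm z).trans a2
        have := (le_abs_self z.re).trans this
        linarith)
    rw [Finset.sum_image hinj] at h1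
    have h2 : ∑ z ∈ S.filter (fun z => s ≤ z.re / 2), (analyticOrderNatAt H z : ℝ) =
        ∑ z ∈ S.filter (fun z => s ≤ z.re / 2), (analyticOrderNatAt E (I * z / 2) : ℝ) :=
      Finset.sum_congr rfl (fun z _ => by rw [hord z])
    rw [h2]
    exact h1.trans hbd
  have hdown : ∑ z ∈ S.filter (fun z => z.re / 2 ≤ -s), (analyticOrderNatAt H z : ℝ) ≤ 200 * (δ / b) * R * Real.log R := by
    have hinj : Set.InjOn (fun z : ℂ => -(I * z / 2)) (S.filter (fun z => z.re / 2 ≤ -s)) := by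
      intro x _ y _ h
      simp only [neg_inj] at h
      have h' : I * x = I * y := by
        have := congrArg (fun w => w * 2) h
        simpa using this
      exact mul_left_cancel₀ Complex.I_ne_zero h'
    have h1 := hblocks ((S.filter (fun z => z.re / 2 ≤ -s)).image (fun z => -(I * z / 2))) (by
      intro w hw
      rw [Finset.mem_image] at hw
      obtain ⟨z, hz, rfl⟩ := hw
      rw [Finset.mem_filter] at hz
      obtain ⟨⟨a1, a2⟩, a3⟩ := hmS z hz.1
      refine ⟨?_, ?_, ?_, ?_⟩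
      · rw [hsym]
        exact hz2 z a1
      · rw [Complex.neg_re, hre, abs_neg, abs_div, abs_neg]
        rw [abs_of_pos (show (0 : ℝ) < 2 by norm_num)]
        linarith
      · rw [Complex.neg_im, him]
        linarith [hz.2]
      · rw [Complex.neg_im, him]
        have := (Complex.abs_re_le_norm z).trans a2
        have := (neg_abs_le z.re)
        linarith)
    rw [Finset.sum_image hinj] at h1
    have h2 : ∑ z ∈ S.filter (fun z => z.re / 2 ≤ -s), (analyticOrderNatAt H z : ℝ) =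
        ∑ z ∈ S.filter (fun z => z.re / 2 ≤ -s), (analyticOrderNatAt E (-(I * z / 2)) : ℝ) :=
      Finset.sum_congr rfl (fun z _ => by rw [hneg, hord z])
    rw [h2]
    exact h1.trans hbd
  have hmid : ∑ z ∈ S.filter (fun z => |z.re / 2| < s), (analyticOrderNatAt H z : ℝ) ≤ δ / b * R * Real.log R := by
    have h1 := hU (3 * s) (by linarith) (S.filter (fun z => |z.re / 2| < s)) (by
      intro z hz
      rw [Finset.mem_filter] at hz
      obtain ⟨⟨a1, a2⟩, a3⟩ := hmS z hz.1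
      refine ⟨a1, ?_⟩
      have h2 := Complex.norm_le_abs_re_add_abs_im z
      have h3 : |z.re| < 2 * s := by
        have := hz.2
        rw [abs_div, abs_of_pos (show (0 : ℝ) < 2 by norm_num)] at this
        linarith
      linarith)
    have h2 : Real.log (3 * s) ≤ Real.log R := Real.log_le_log (by positivity) (by nlinarith)
    have h3 : 4 * (3 * s) * Real.log (3 * s) ≤ 12 * s * Real.log R := by nlinarith
    have h4 : 12 * s ≤ δ / b * R := by
      have h5 : 12 * b ≤ s * δ := by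
        rwa [div_le_iff₀ hδ] at g2
      rw [div_mul_eq_mul_div, le_div_iff₀ hb]
      nlinarith
    have h5 : 12 * s * Real.log R ≤ δ / b * R * Real.log R := mul_le_mul_of_nonneg_right h4 hlogR
    linarith
  have hcover : ∑ z ∈ S, (analyticOrderNatAt H z : ℝ) ≤
      ∑ z ∈ S.filter (fun z => s ≤ z.re / 2), (analyticOrderNatAt H z : ℝ) +
      (∑ z ∈ S.filter (fun z => z.re / 2 ≤ -s), (analyticOrderNatAt H z : ℝ) +
      ∑ z ∈ S.filter (fun z => |z.re / 2| < s), (analyticOrderNatAt H z : ℝ)) := by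
    rw [Finset.sum_filter, Finset.sum_filter, Finset.sum_filter, ← Finset.sum_add_distrib, ← Finset.sum_add_distrib]
    apply Finset.sum_le_sum
    intro z _
    have h0 := hnn z
    rcases le_or_gt s (z.re / 2) with h | h
    · rw [if_pos h]
      have h1 : (0 : ℝ) ≤ (if z.re / 2 ≤ -s then (analyticOrderNatAt H z : ℝ) else 0) := by split <;> simp
      have h2 : (0 : ℝ) ≤ (if |z.re / 2| < s then (analyticOrderNatAt H z : ℝ) else 0) := by split <;> simp
      linarith
    · rcases le_or_gt (z.re / 2) (-s) with h' | h'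
      · rw [if_pos h']
        have h1 : (0 : ℝ) ≤ (if s ≤ z.re / 2 then (analyticOrderNatAt H z : ℝ) else 0) := by split <;> simp
        have h2 : (0 : ℝ) ≤ (if |z.re / 2| < s then (analyticOrderNatAt H z : ℝ) else 0) := by split <;> simp
        linarith
      · have h3 : |z.re / 2| < s := abs_lt.2 ⟨h', h⟩
        rw [if_pos h3]
        have h1 : (0 : ℝ) ≤ (if s ≤ z.re / 2 then (analyticOrderNatAt H z : ℝ) else 0) := by split <;> simp
        have h2 : (0 : ℝ) ≤ (if z.re / 2 ≤ -s then (analyticOrderNatAt H z : ℝ) else 0) := by split <;> simp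
        linarith
  have htot : ∑ z ∈ S, (analyticOrderNatAt H z : ℝ) ≤ 401 * (δ / b) * R * Real.log R := by
    linarith
  refine htot.trans ?_
  have e : 401 * (δ / b) * R * Real.log R = 401 / c * (δ / b) * (c * R * Real.log R) := by
    field_simp
  rw [e]
  exact mul_le_mul_of_nonneg_left hlow (by positivity)

end Pool.Agent.J4H87.NG
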