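import Pool.Agent.J4H4.NG.Stm
import Pool.Agent.J4H87.NG.E0

set_option autoImplicit false

/-! # Project NG: (E) -/

namespace Pool.Agent.J4H87.NG

open Complex Filter Topology
open Pool.Agent.J4H4.NG

theorem t_E : S_E := by
  classical
  intro hREP hNEAR hUPT hTOT
  obtain ⟨c, hc, hTOT⟩ := hTOT
  refine ⟨max 4 (401 / c), lt_of_lt_of_le (by norm_num) (le_max_left _ _), ?_⟩
  intro b δ hb hδ
  obtain ⟨h1, h2, h3, -⟩ := hREP b hb
  have hcore : ∀ δ' : ℝ, 0 < δ' → δ' ≤ b / 4 → _ := fun δ' h' h'' =>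
    core (J4H2.DN.Hd (-b)) (EE (b / 4)) b δ' c h2 h1 h3 hb h' hc (hNEAR (b / 4) δ' (by positivity) h' h'')
      (hUPT b hb) (hTOT b hb)
  rcases le_or_gt δ (b / 4) with hd | hd
  · obtain ⟨R₀, hR2, hR⟩ := hcore δ hδ hd
    refine ⟨R₀, hR2, fun R hRR => ?_⟩
    obtain ⟨g1, g2, g3⟩ := hR R hRR
    refine ⟨g1, g2.trans ?_⟩
    have hall : 0 ≤ ∑ᶠ z ∈ {z : ℂ | J4H2.DN.Hd (-b) z = 0 ∧ ‖z‖ ≤ R}, (analyticOrderNatAt (J4H2.DN.Hd (-b)) z : ℝ) :=
      finsum_nonneg (fun z => finsum_nonneg (fun _ => Nat.cast_nonneg _))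
    apply mul_le_mul_of_nonneg_right _ hall
    rw [mul_div_assoc]
    exact mul_le_mul_of_nonneg_right (le_max_right _ _) (by positivity)
  · obtain ⟨R₀, hR2, hR⟩ := hcore (b / 4) (by positivity) (le_refl _)
    refine ⟨R₀, hR2, fun R hRR => ?_⟩
    obtain ⟨g1, g2, g3⟩ := hR R hRR
    refine ⟨g1, ?_⟩
    have hF2 : {z : ℂ | (J4H2.DN.Hd (-b) z = 0 ∧ ‖z‖ ≤ R) ∧ |z.im| ≤ δ * Real.log R}.Finite :=
      g1.subset (fun z hz => hz.1)
    rw [finsum_mem_eq_finite_toFinset_sum _ g1, finsum_mem_eq_finite_toFinset_sum _ hF2]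
    have hnn : ∀ z, (0 : ℝ) ≤ (analyticOrderNatAt (J4H2.DN.Hd (-b)) z : ℝ) := fun z => Nat.cast_nonneg _
    have hle : ∑ z ∈ hF2.toFinset, (analyticOrderNatAt (J4H2.DN.Hd (-b)) z : ℝ) ≤
        ∑ z ∈ g1.toFinset, (analyticOrderNatAt (J4H2.DN.Hd (-b)) z : ℝ) := by
      apply Finset.sum_le_sum_of_subset_of_nonneg _ (fun z _ _ => hnn z)
      intro z hz
      rw [Set.Finite.mem_toFinset] at hz ⊢
      exact hz.1
    have hall : 0 ≤ ∑ z ∈ g1.toFinset, (analyticOrderNatAt (J4H2.DN.Hd (-b)) z : ℝ) :=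
      Finset.sum_nonneg (fun z _ => hnn z)
    have h1 : 1 ≤ max 4 (401 / c) * δ / b := by
      rw [le_div_iff₀ hb]
      have : 4 * δ ≤ max 4 (401 / c) * δ := mul_le_mul_of_nonneg_right (le_max_left _ _) hδ.le
      linarith
    exact hle.trans (le_mul_of_one_le_left hall h1)

end Pool.Agent.J4H87.NG
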