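import Mathlib

set_option autoImplicit false

/-! # Project NG: (GBOX) for abstract functions -/

namespace Pool.Agent.J4H87.NG

open Complex Filter Topology

theorem gbox (E : ℂ → ℂ) (g : ℝ → ℝ) (a κ C V₀ C' V₁ : ℝ) (ha : 0 < a) (hκ : 0 < κ) (hE : Differentiable ℂ E)
    (hJ : ∀ (f : ℂ → ℂ) (c : ℂ) (r M : ℝ), Differentiable ℂ f → 0 < r → f c ≠ 0 →
      (∀ w : ℂ, ‖w - c‖ ≤ 2 * r → ‖f w‖ ≤ Real.exp M * ‖f c‖) → ∀ S : Finset ℂ, (∀ w ∈ S, f w = 0 ∧ ‖w - c‖ ≤ r) →
      ∑ w ∈ S, (analyticOrderNatAt f w : ℝ) ≤ M / Real.log 2)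
    (hC : 0 < C) (hC' : 1 ≤ C') (hV₀ : 1 ≤ V₀) (hV₁ : 1 ≤ V₁)
    (hU : ∀ v : ℝ, V₀ ≤ v → ∀ η : ℝ, ‖E (((3 / 2 + η : ℝ) : ℂ) + I * v)‖ ≤ C * Real.exp (η ^ 2 / (4 * a)) * g v)
    (hG : ∀ v v' : ℝ, V₁ ≤ v → V₁ ≤ v' → 0 < g v ∧
      g v' ≤ C' * (1 + |v' - v|) ^ 5 * Real.exp (Real.pi * |v' - v| / 4) * g v) :
    ∃ T₀ : ℝ, 2 ≤ T₀ ∧ ∀ T v η : ℝ, T₀ ≤ T → T ≤ v → v ≤ 4 * T → 0 ≤ η →
      η ≤ κ * Real.log T → T⁻¹ * g v ≤ ‖E (((3 / 2 + η : ℝ) : ℂ) + I * v)‖ → ∀ S : Finset ℂ,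
      (∀ w ∈ S, E w = 0 ∧ |w.re| ≤ κ * Real.log T ∧ |w.im - v| ≤ 2 * κ * Real.log T) →
      ∑ w ∈ S, (analyticOrderNatAt E w : ℝ) ≤ 20 * (κ ^ 2 / a) * (Real.log T) ^ 2 := by
  have hlog : ∀ D : ℝ, ∀ᶠ T : ℝ in atTop, D ≤ Real.log T := fun D => Real.tendsto_log_atTop.eventually_ge_atTop D
  have hlin : ∀ᶠ T : ℝ in atTop, 12 * κ * Real.log T ≤ T := by
    have h1 := (Real.isLittleO_log_id_atTop).bound (show (0 : ℝ) < 1 / (12 * κ) by positivity)
    filter_upwards [h1, eventually_ge_atTop 1] with T hT hT1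
    rw [Real.norm_of_nonneg (Real.log_nonneg hT1), id, Real.norm_of_nonneg (by linarith)] at hT
    rw [div_mul_eq_mul_div, one_mul, le_div_iff₀ (by positivity)] at hT
    linarith
  obtain ⟨T₀, hT₀⟩ := eventually_atTop.1 (((hlog (9 / κ)).and ((hlog ((|Real.log (C * C')| + (36 * κ + 1)) / (3 / 2 * (κ ^ 2 / a)))).and
    ((hlog 1).and (hlin.and (eventually_ge_atTop (2 * (V₀ + V₁))))))))
  refine ⟨max T₀ 2, le_max_right _ _, ?_⟩
  intro T v η hT hv1 hv2 hη0 hη1 hgood S hS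
  obtain ⟨c1, c2, c3, c4, c5⟩ := hT₀ T ((le_max_left _ _).trans hT)
  have hT2 : 2 ≤ T := (le_max_right _ _).trans hT
  have hT0 : 0 < T := by linarith
  set L : ℝ := Real.log T with hL
  have hL0 : 0 < L := by linarith
  have hκL : 9 ≤ κ * L := by
    rw [div_le_iff₀ hκ] at c1
    linarith
  have hka : 0 < κ ^ 2 / a := by positivity
  have hlinL : |Real.log (C * C')| + (36 * κ + 1) * L ≤ 3 / 2 * (κ ^ 2 / a) * L ^ 2 := by
    rw [div_le_iff₀ (by positivity)] at c2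
    have h1 : |Real.log (C * C')| ≤ |Real.log (C * C')| * L := le_mul_of_one_le_right (abs_nonneg _) c3
    have h2 : (|Real.log (C * C')| + (36 * κ + 1)) * L ≤ L * (3 / 2 * (κ ^ 2 / a)) * L :=
      mul_le_mul_of_nonneg_right c2 hL0.le
    nlinarith
  set c : ℂ := ((3 / 2 + η : ℝ) : ℂ) + I * v with hc
  have hcre : c.re = 3 / 2 + η := by simp [hc]
  have hcim : c.im = v := by simp [hc]
  have hgv := (hG v v (by linarith) (by linarith)).1
  have hfc : E c ≠ 0 := by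
    intro h
    rw [h, norm_zero] at hgood
    have : 0 < T⁻¹ * g v := by positivity
    linarith
  set M : ℝ := |Real.log (C * C')| + 49 * κ ^ 2 * L ^ 2 / (4 * a) + (36 * κ + 1) * L with hM
  have hmain := hJ E c (3 * (κ * L)) M hE (by positivity) hfc (by
    intro w hw
    have hre : |w.re - c.re| ≤ 6 * (κ * L) := by
      have := Complex.abs_re_le_norm (w - c)
      rw [Complex.sub_re] at this
      linarith
    have him : |w.im - c.im| ≤ 6 * (κ * L) := by
      have := Complex.abs_im_le_norm (w - c)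
      rw [Complex.sub_im] at this
      linarith
    rw [hcre] at hre
    rw [hcim] at him
    have hre' := abs_le.1 hre
    have him' := abs_le.1 him
    have hw1 : w = ((3 / 2 + (w.re - 3 / 2) : ℝ) : ℂ) + I * (w.im : ℝ) := by
      apply Complex.ext
      · simp
      · simp
    have hwim : V₀ + V₁ ≤ w.im := by linarith
    have hEw : ‖E w‖ ≤ C * Real.exp ((w.re - 3 / 2) ^ 2 / (4 * a)) * g w.im := by
      have := hU w.im (by linarith) (w.re - 3 / 2)
      rwa [← hw1] at this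
    have hη' : |w.re - 3 / 2| ≤ 7 * (κ * L) := by
      rw [abs_le]
      constructor <;> linarith
    have hsq : (w.re - 3 / 2) ^ 2 ≤ 49 * κ ^ 2 * L ^ 2 := by
      have h1 : (w.re - 3 / 2) ^ 2 = |w.re - 3 / 2| ^ 2 := (sq_abs _).symm
      rw [h1]
      calc |w.re - 3 / 2| ^ 2 ≤ (7 * (κ * L)) ^ 2 := pow_le_pow_left₀ (abs_nonneg _) hη' 2
        _ = 49 * κ ^ 2 * L ^ 2 := by ring
    have hgw := (hG v w.im (by linarith) (by linarith)).2
    set d : ℝ := |w.im - v| with hd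
    have hd0 : 0 ≤ d := abs_nonneg _
    have h5 : (1 + d) ^ 5 ≤ Real.exp (5 * d) := by
      have h1 : 1 + d ≤ Real.exp d := by linarith [Real.add_one_le_exp d]
      calc (1 + d) ^ 5 ≤ (Real.exp d) ^ 5 := pow_le_pow_left₀ (by linarith) h1 5
        _ = Real.exp (5 * d) := by
          rw [← Real.exp_nat_mul]
          norm_num
    have hpi : Real.pi * d / 4 ≤ d := by
      have := Real.pi_le_four
      nlinarith
    have hgw2 : g w.im ≤ C' * Real.exp (6 * d) * g v := by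
      refine hgw.trans ?_
      have h1 : (1 + d) ^ 5 * Real.exp (Real.pi * d / 4) ≤ Real.exp (5 * d) * Real.exp d :=
        mul_le_mul h5 (Real.exp_le_exp.2 hpi) (Real.exp_pos _).le (Real.exp_pos _).le
      rw [← Real.exp_add] at h1
      have h2 : 5 * d + d = 6 * d := by ring
      rw [h2] at h1
      have h3 : C' * ((1 + d) ^ 5 * Real.exp (Real.pi * d / 4)) * g v ≤ C' * Real.exp (6 * d) * g v := by
        gcongr
      linarith
    have hgT : g v ≤ T * ‖E c‖ := by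
      rw [inv_mul_le_iff₀ hT0] at hgood
      exact hgood
    have hTexp : T = Real.exp L := (Real.exp_log hT0).symm
    have hCC : C * C' ≤ Real.exp |Real.log (C * C')| := by
      have h1 : 0 < C * C' := by positivity
      calc C * C' = Real.exp (Real.log (C * C')) := (Real.exp_log h1).symm
        _ ≤ _ := Real.exp_le_exp.2 (le_abs_self _)
    calc ‖E w‖ ≤ C * Real.exp ((w.re - 3 / 2) ^ 2 / (4 * a)) * g w.im := hEw
      _ ≤ C * Real.exp (49 * κ ^ 2 * L ^ 2 / (4 * a)) * (C' * Real.exp (6 * d) * (T * ‖E c‖)) := by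
        apply mul_le_mul
        · apply mul_le_mul_of_nonneg_left _ hC.le
          apply Real.exp_le_exp.2
          exact div_le_div_of_nonneg_right hsq (by positivity)
        · refine hgw2.trans ?_
          exact mul_le_mul_of_nonneg_left hgT (by positivity)
        · exact ((hG w.im w.im (by linarith) (by linarith)).1).le
        · positivity
      _ = (C * C') * Real.exp (49 * κ ^ 2 * L ^ 2 / (4 * a)) * Real.exp (6 * d) * Real.exp L * ‖E c‖ := by
        rw [← hTexp]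
        ring
      _ ≤ Real.exp |Real.log (C * C')| * Real.exp (49 * κ ^ 2 * L ^ 2 / (4 * a)) * Real.exp (36 * κ * L) * Real.exp L * ‖E c‖ := by
        have h6 : 6 * d ≤ 36 * κ * L := by linarith
        have h7 := Real.exp_le_exp.2 h6
        gcongr
      _ = Real.exp M * ‖E c‖ := by
        rw [← Real.exp_add, ← Real.exp_add, ← Real.exp_add]
        congr 2
        rw [hM]
        ring) S (by
    intro w hw
    obtain ⟨a1, a2, a3⟩ := hS w hw
    refine ⟨a1, ?_⟩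
    have h1 : |w.re - c.re| ≤ 2 * (κ * L) + 3 / 2 := by
      rw [hcre]
      have := abs_le.1 a2
      rw [abs_le]
      constructor <;> linarith
    have h2 : |w.im - c.im| ≤ 2 * (κ * L) := by
      rw [hcim]
      linarith
    rw [Complex.norm_eq_sqrt_sq_add_sq, Complex.sub_re, Complex.sub_im]
    apply Real.sqrt_le_iff.2
    refine ⟨by positivity, ?_⟩
    have h3 : (w.re - c.re) ^ 2 ≤ (2 * (κ * L) + 3 / 2) ^ 2 := by
      rw [← sq_abs (w.re - c.re)]
      exact pow_le_pow_left₀ (abs_nonneg _) h1 2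
    have h4 : (w.im - c.im) ^ 2 ≤ (2 * (κ * L)) ^ 2 := by
      rw [← sq_abs (w.im - c.im)]
      exact pow_le_pow_left₀ (abs_nonneg _) h2 2
    nlinarith)
  refine hmain.trans ?_
  have hlog2 : (0.6931 : ℝ) < Real.log 2 := lt_trans (by norm_num) Real.log_two_gt_d9
  rw [div_le_iff₀ (by linarith)]
  have hM2 : M ≤ 55 / 4 * ((κ ^ 2 / a) * L ^ 2) := by
    have e : 49 * κ ^ 2 * L ^ 2 / (4 * a) = 49 / 4 * ((κ ^ 2 / a) * L ^ 2) := by
      field_simp
    rw [hM, e]
    linarith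
  have hX : 0 ≤ (κ ^ 2 / a) * L ^ 2 := by positivity
  have h8 : 20 * (κ ^ 2 / a) * L ^ 2 * 0.6931 ≤ 20 * (κ ^ 2 / a) * L ^ 2 * Real.log 2 :=
    mul_le_mul_of_nonneg_left hlog2.le (by positivity)
  nlinarith

end Pool.Agent.J4H87.NG
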