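import Pool.Agent.J4H4.NG.Stm
import Pool.Agent.J4H1.NG.Rep
import Pool.Agent.J4H87.NG.Gbox0

set_option autoImplicit false

/-! # Project NG: (GBOX) -/

namespace Pool.Agent.J4H87.NG

open Complex Filter Topology
open Pool.Agent.J4H4.NG

theorem t_GBOX : S_JEN → S_GAM → S_UPB → S_GBOX := by
  intro hJ hG hU a κ ha hκ
  obtain ⟨C', V₁, hC', hV₁, hG⟩ := hG
  obtain ⟨C, V₀, hC, hV₀, hU⟩ := hU a ha
  have hE : Differentiable ℂ (EE a) := by
    have h := (Pool.Agent.J4H1.NG.t_REP (4 * a) (by positivity)).2.1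
    have e : 4 * a / 4 = a := by ring
    rwa [e] at h
  exact gbox (EE a) (fun v => ‖gam (2 + I * v)‖) a κ C V₀ C' V₁ ha hκ hE hJ hC hC' hV₀ hV₁ hU
    (fun v v' hv hv' => ⟨norm_pos_iff.2 (hG v v' hv hv').1, (hG v v' hv hv').2⟩)

end Pool.Agent.J4H87.NG
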